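import Pool.Agent.Helper2.Zp.Galois

/-!
Frobenius elements for places (towards Task D1 of the blueprint of MP_ddfa9a_nt).
-/

set_option autoImplicit false

namespace ZpTower

open IsLocalRing IsDedekindDomain
open scoped Pointwise

variable {k K L : Type*} [Field k] [Field K] [Field L] [Algebra k K] [Algebra k L] [Algebra K L]
  [IsScalarTower k K L]

theorem Place.mem_nonunits_smul (σ : L ≃ₐ[K] L) (w : Place k L) (x : L) :
    x ∈ (σ • w).ring.nonunits ↔ σ.symm x ∈ w.ring.nonunits := by
  rw [ValuationSubring.mem_nonunits_iff_or, ValuationSubring.mem_nonunits_iff_or,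
    Place.mem_smul_ring, map_inv₀, map_eq_zero]

theorem Place.mem_nonunits_restrict [Algebra.IsAlgebraic K L] (w : Place k L) (x : K) :
    x ∈ (w.restrict K).ring.nonunits ↔ algebraMap K L x ∈ w.ring.nonunits := by
  rw [ValuationSubring.mem_nonunits_iff_or, ValuationSubring.mem_nonunits_iff_or,
    Place.mem_restrict_ring, map_inv₀, map_eq_zero]

section Galois

variable [FiniteDimensional K L] [IsGalois K L] {v : Place k K} {w : Place k L}
  (h : w.restrict K = v)

include h in
/-- Existence of a Frobenius element at the place `w`. -/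
theorem exists_frob [Finite (ResidueField w.ring)] :
    ∃ σ : L ≃ₐ[K] L, ∀ z ∈ w.ring, σ z - z ^ Nat.card (ResidueField v.ring) ∈ w.ring.nonunits := by
  have hfin : Finite (integralClosure v.ring L ⧸ primeOf h) :=
    Finite.of_injective _ (residueMap_bijective h).1
  obtain ⟨σ, hσ⟩ := IsArithFrobAt.exists_of_isInvariant v.ring (L ≃ₐ[K] L) (primeOf h)
  refine ⟨σ, fun z hz => ?_⟩
  have hcard : Nat.card (v.ring ⧸ (primeOf h).under v.ring) = Nat.card (ResidueField v.ring) := by
    rw [← Ideal.over_def (primeOf h) (maximalIdeal v.ring)]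
    rfl
  -- `w` is stable under `σ`
  have hstab : σ • w = w := by
    have h1 := hσ.mem_stabilizer
    have h2 : (σ • w).restrict K = v := by rw [Place.restrict_smul]; exact h
    have h3 : primeOf h2 = primeOf h := by
      rw [MulAction.mem_stabilizer_iff] at h1
      rw [← h1]
      ext b
      rw [Ideal.mem_pointwise_smul_iff_inv_smul_mem, mem_primeOf, mem_primeOf]
      have e1 : toRing h2 b ∈ maximalIdeal (σ • w).ring ↔ (b : L) ∈ (σ • w).ring.nonunits :=
        ((σ • w).ring.coe_mem_nonunits_iff (a := toRing h2 b)).symm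
      have e2 : toRing h (σ⁻¹ • b) ∈ maximalIdeal w.ring ↔
          ((σ⁻¹ • b : integralClosure v.ring L) : L) ∈ w.ring.nonunits :=
        (w.ring.coe_mem_nonunits_iff (a := toRing h (σ⁻¹ • b))).symm
      rw [e1, e2, Place.mem_nonunits_smul]
      rfl
    have h4 := ring_eq h2
    have h5 := ring_eq h
    apply Place.ext
    rw [← h4, ← h5]
    congr 1
    exact HeightOneSpectrum.ext h3
  -- lift `z` to the integral closure modulo the maximal ideal
  obtain ⟨y, hy⟩ := (residueMap_bijective h).2 (residue w.ring ⟨z, hz⟩)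
  obtain ⟨s, rfl⟩ := Ideal.Quotient.mk_surjective y
  have hy' : residue w.ring (toRing h s) = residue w.ring ⟨z, hz⟩ := hy
  have hsz : toRing h s - ⟨z, hz⟩ ∈ maximalIdeal w.ring := by
    rw [← residue_eq_zero_iff, map_sub, hy', sub_self]
  have hsz' : (s : L) - z ∈ w.ring.nonunits := by
    rw [← ValuationSubring.coe_mem_nonunits_iff] at hsz
    exact hsz
  have h1 : σ (s : L) - σ z ∈ w.ring.nonunits := by
    rw [← map_sub]
    have h6 : (σ ((s : L) - z)) ∈ (σ • w).ring.nonunits := by
      rw [Place.mem_nonunits_smul, AlgEquiv.symm_apply_apply]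
      exact hsz'
    rwa [hstab] at h6
  have h2 : σ (s : L) - (s : L) ^ Nat.card (ResidueField v.ring) ∈ w.ring.nonunits := by
    have h7 := hσ s
    rw [hcard, mem_primeOf, ← ValuationSubring.coe_mem_nonunits_iff] at h7
    exact h7
  have h3 : (s : L) ^ Nat.card (ResidueField v.ring) - z ^ Nat.card (ResidueField v.ring) ∈
      w.ring.nonunits := by
    have h8 : (toRing h s) ^ Nat.card (ResidueField v.ring) -
        (⟨z, hz⟩ : w.ring) ^ Nat.card (ResidueField v.ring) ∈ maximalIdeal w.ring := by
      rw [← residue_eq_zero_iff, map_sub, map_pow, map_pow, hy', sub_self]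
    rw [← ValuationSubring.coe_mem_nonunits_iff] at h8
    exact h8
  have h9 := add_mem (sub_mem h2 h1) h3
  convert h9 using 1
  ring

omit [FiniteDimensional K L] [IsGalois K L] in
/-- Frobenius elements at conjugate places, for an abelian extension. -/
theorem frob_smul {N : ℕ} {σ : L ≃ₐ[K] L} (hcomm : ∀ a b : L ≃ₐ[K] L, a * b = b * a)
    (hσ : ∀ z ∈ w.ring, σ z - z ^ N ∈ w.ring.nonunits) (τ : L ≃ₐ[K] L) :
    ∀ z ∈ (τ • w).ring, σ z - z ^ N ∈ (τ • w).ring.nonunits := by
  intro z hz
  rw [Place.mem_smul_ring] at hz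
  rw [Place.mem_nonunits_smul, map_sub, map_pow]
  have h1 := hσ _ hz
  have h2 : τ.symm (σ z) = σ (τ.symm z) := by
    have h3 := DFunLike.congr_fun (hcomm τ⁻¹ σ) z
    exact h3
  rw [h2]
  exact h1

theorem card_residue [Finite k] [Finite (ResidueField w.ring)] :
    Nat.card (ResidueField w.ring) = Nat.card k ^ w.degree := by
  have : Module.Finite k (ResidueField w.ring) := Module.Finite.of_finite
  exact Module.natCard_eq_pow_finrank

omit [FiniteDimensional K L] [IsGalois K L] in
theorem finite_residue_restrict [Algebra.IsAlgebraic K L] [Finite (ResidueField w.ring)] :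
    Finite (ResidueField (w.restrict K).ring) := by
  let ψ : (w.restrict K).ring →+* w.ring :=
    ((algebraMap K L).comp (w.restrict K).ring.subtype).codRestrict w.ring.toSubring
      (fun a => a.2)
  have hloc : IsLocalHom ψ := by
    constructor
    intro a ha
    by_contra hna
    have h1 : a ∈ maximalIdeal (w.restrict K).ring := hna
    rw [← ValuationSubring.coe_mem_nonunits_iff, Place.mem_nonunits_restrict] at h1
    have h2 : ((ψ a : w.ring) : L) ∈ w.ring.nonunits := h1
    rw [ValuationSubring.coe_mem_nonunits_iff] at h2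
    exact h2 ha
  exact Finite.of_injective (ResidueField.map ψ) (ResidueField.map ψ).injective

include h in
theorem card_residue_pow [Finite k] [Finite (ResidueField w.ring)] :
    Nat.card (ResidueField w.ring) = Nat.card (ResidueField v.ring) ^ resDeg L v := by
  have : Finite (ResidueField v.ring) := by
    subst h
    exact finite_residue_restrict
  rw [card_residue, card_residue, degree_eq_resDeg h, mul_comm, pow_mul]

include h in
/-- The order of the Frobenius at an unramified place. -/
theorem orderOf_frob [Finite k] [Finite (ResidueField w.ring)] (hw : w.IsUnramified K)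
    {σ : L ≃ₐ[K] L}
    (hσ : ∀ z ∈ w.ring, σ z - z ^ Nat.card (ResidueField v.ring) ∈ w.ring.nonunits) :
    orderOf σ = resDeg L v := by
  have hfinv : Finite (ResidueField v.ring) := by
    subst h
    exact finite_residue_restrict
  set N := Nat.card (ResidueField v.ring) with hN
  have hN2 : 1 < N := Finite.one_lt_card
  -- iterates
  have hmem : ∀ z ∈ w.ring, σ z ∈ w.ring := by
    intro z hz
    have h1 := w.ring.nonunits_le (hσ z hz)
    have h2 : σ z = (σ z - z ^ N) + z ^ N := by ring
    rw [h2]
    exact w.ring.add_mem _ _ h1 (w.ring.pow_mem hz N)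
  have hiter : ∀ j : ℕ, ∀ z ∈ w.ring, (σ ^ j) z - z ^ (N ^ j) ∈ w.ring.nonunits := by
    intro j
    induction j with
    | zero => intro z _; simpa using w.ring.nonunits.zero_mem
    | succ j ih =>
      intro z hz
      have h1 := ih (σ z) (hmem z hz)
      have h2 : (σ ^ (j + 1)) z = (σ ^ j) (σ z) := by rw [pow_succ]; rfl
      have h3 : (σ z) ^ (N ^ j) - (z ^ N) ^ (N ^ j) ∈ w.ring.nonunits := by
        have h4 : (⟨σ z, hmem z hz⟩ : w.ring) - ⟨z, hz⟩ ^ N ∈ maximalIdeal w.ring := by
          rw [← ValuationSubring.coe_mem_nonunits_iff]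
          exact hσ z hz
        have h5 : (⟨σ z, hmem z hz⟩ : w.ring) ^ (N ^ j) - (⟨z, hz⟩ ^ N) ^ (N ^ j) ∈
            maximalIdeal w.ring := by
          have h6 := sub_dvd_pow_sub_pow (⟨σ z, hmem z hz⟩ : w.ring) (⟨z, hz⟩ ^ N) (N ^ j)
          exact Ideal.mem_of_dvd _ h6 h4
        rw [← ValuationSubring.coe_mem_nonunits_iff] at h5
        exact h5
      have h7 := add_mem h1 h3
      rw [h2]
      convert h7 using 1
      rw [pow_succ' N j, pow_mul]
      ring
  apply le_antisymm
  · -- orderOf σ divides the order of the stabilizer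
    have hstab : σ⁻¹ • w = w := by
      apply Place.ext
      symm
      apply ValuationSubring.eq_of_le_of_ne_top
      · intro x hx
        rw [Place.mem_smul_ring]
        exact hmem x hx
      · exact ne_top_of_dvr _
    have h1 : orderOf σ ∣ Nat.card (MulAction.stabilizer (L ≃ₐ[K] L) w) := by
      have h2 : σ ∈ MulAction.stabilizer (L ≃ₐ[K] L) w := by
        rw [← inv_inv σ]
        exact inv_mem (S := Subgroup (L ≃ₐ[K] L)) hstab
      have h3 := orderOf_dvd_natCard (⟨σ, h2⟩ : MulAction.stabilizer (L ≃ₐ[K] L) w)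
      rwa [Subgroup.orderOf_mk] at h3
    have h2 : Nat.card (MulAction.stabilizer (L ≃ₐ[K] L) w) * (v.over L).ncard =
        Module.finrank K L := by
      rw [← IsGalois.card_aut_eq_finrank, ← Subgroup.card_mul_index
        (MulAction.stabilizer (L ≃ₐ[K] L) w), MulAction.index_stabilizer, orbit_eq_over h]
    have h3 := resDeg_mul_ncard_eq h hw
    have h4 : Nat.card (MulAction.stabilizer (L ≃ₐ[K] L) w) = resDeg L v :=
      Nat.eq_of_mul_eq_mul_right (over_ncard_pos (L := L) v) (h2.trans h3.symm)
    rw [h4] at h1
    exact Nat.le_of_dvd (resDeg_pos v) h1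
  · -- counting roots
    have h1 : ∀ x : ResidueField w.ring, x ^ (N ^ orderOf σ) = x := by
      intro x
      obtain ⟨z, rfl⟩ := residue_surjective x
      have h2 := hiter (orderOf σ) z z.2
      rw [pow_orderOf_eq_one] at h2
      have h3 : z - z ^ (N ^ orderOf σ) ∈ maximalIdeal w.ring := by
        rw [← ValuationSubring.coe_mem_nonunits_iff]
        exact h2
      rw [← residue_eq_zero_iff, map_sub, map_pow, sub_eq_zero] at h3
      exact h3.symm
    have h2 : 1 < N ^ orderOf σ := Nat.one_lt_pow (orderOf_pos σ).ne' hN2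
    have h3 : Nat.card (ResidueField w.ring) ≤ N ^ orderOf σ := by
      classical
      have := Fintype.ofFinite (ResidueField w.ring)
      have hne : (Polynomial.X ^ (N ^ orderOf σ) - Polynomial.X :
          Polynomial (ResidueField w.ring)) ≠ 0 := FiniteField.X_pow_card_sub_X_ne_zero _ h2
      rw [Nat.card_eq_fintype_card, ← Finset.card_univ]
      refine (Finset.card_le_card (t := (Polynomial.X ^ (N ^ orderOf σ) - Polynomial.X :
          Polynomial (ResidueField w.ring)).roots.toFinset) ?_).trans ?_
      · intro x _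
        rw [Multiset.mem_toFinset, Polynomial.mem_roots hne]
        simp [h1 x]
      · refine (Multiset.toFinset_card_le _).trans ?_
        refine (Polynomial.card_roots' _).trans ?_
        rw [FiniteField.X_pow_card_sub_X_natDegree_eq _ h2]
    rw [card_residue_pow h] at h3
    exact (Nat.pow_le_pow_iff_right hN2).mp h3

end Galois

end ZpTower
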