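import Pool.Agent.Helper7.Defs

/-!
Layers of a `ℤ_p`-tower (Task D0, D0' of the blueprint of MP_ddfa9a_nt).
-/

set_option autoImplicit false

namespace Pool.Agent.Helper7

open IntermediateField

variable {p : ℕ} [Fact p.Prime] {k K Ω : Type*} [Field k] [Finite k] [CharP k p]
    [Field K] [Field Ω] [Algebra k K] [Algebra K Ω] [Algebra k Ω] [IsScalarTower k K Ω]

namespace ZpTower

theorem mem_subgroup (T : ZpTower p k K Ω) (n : ℕ) (σ : Gal(Ω/K)) :
    σ ∈ T.subgroup n ↔
      Multiplicative.toAdd (T.galEquiv σ) ∈ Ideal.span {(p : ℤ_[p]) ^ n} := Iff.rfl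

theorem mem_subgroup' (T : ZpTower p k K Ω) (n : ℕ) (σ : Gal(Ω/K)) :
    σ ∈ T.subgroup n ↔ PadicInt.toZModPow n (Multiplicative.toAdd (T.galEquiv σ)) = 0 := by
  rw [mem_subgroup, ← PadicInt.ker_toZModPow, RingHom.mem_ker]

/-- Reduction of the Galois group modulo `p ^ n`. -/
noncomputable def redHom (T : ZpTower p k K Ω) (n : ℕ) :
    Gal(Ω/K) →* Multiplicative (ZMod (p ^ n)) :=
  (AddMonoidHom.toMultiplicative (PadicInt.toZModPow n : ℤ_[p] →+* ZMod (p ^ n)).toAddMonoidHom).comp
    T.galEquiv.toMulEquiv.toMonoidHom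

theorem redHom_apply (T : ZpTower p k K Ω) (n : ℕ) (σ : Gal(Ω/K)) :
    T.redHom n σ = Multiplicative.ofAdd (PadicInt.toZModPow n (Multiplicative.toAdd (T.galEquiv σ))) :=
  rfl

theorem redHom_surjective (T : ZpTower p k K Ω) (n : ℕ) : Function.Surjective (T.redHom n) := by
  intro y
  obtain ⟨a, ha⟩ := ZMod.ringHom_surjective (PadicInt.toZModPow n : ℤ_[p] →+* ZMod (p ^ n))
    (Multiplicative.toAdd y)
  refine ⟨T.galEquiv.symm (Multiplicative.ofAdd a), ?_⟩
  rw [redHom_apply, ContinuousMulEquiv.apply_symm_apply, toAdd_ofAdd, ha, ofAdd_toAdd]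

theorem ker_redHom (T : ZpTower p k K Ω) (n : ℕ) : (T.redHom n).ker = T.subgroup n := by
  ext σ
  rw [MonoidHom.mem_ker, mem_subgroup', redHom_apply]
  exact Iff.rfl

instance subgroup_normal (T : ZpTower p k K Ω) (n : ℕ) : (T.subgroup n).Normal := by
  rw [← ker_redHom]
  infer_instance

theorem isOpen_span_pow (n : ℕ) : IsOpen ((Ideal.span {(p : ℤ_[p]) ^ n} : Ideal ℤ_[p]) : Set ℤ_[p]) := by
  have h1 : ((Ideal.span {(p : ℤ_[p]) ^ n} : Ideal ℤ_[p]) : Set ℤ_[p]) =
      Metric.closedBall 0 ((p : ℝ) ^ (-(n : ℤ))) := by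
    ext x
    rw [Metric.mem_closedBall, dist_zero_right, SetLike.mem_coe, ← PadicInt.norm_le_pow_iff_mem_span_pow]
  rw [h1]
  refine IsUltrametricDist.isOpen_closedBall _ ?_
  have hp : (0 : ℝ) < p := by exact_mod_cast (Fact.out : p.Prime).pos
  positivity

theorem isOpen_subgroup (T : ZpTower p k K Ω) (n : ℕ) :
    IsOpen (T.subgroup n : Set Gal(Ω/K)) := by
  have h1 : (T.subgroup n : Set Gal(Ω/K)) = T.galEquiv ⁻¹'
      (Multiplicative.toAdd ⁻¹' ((Ideal.span {(p : ℤ_[p]) ^ n} : Ideal ℤ_[p]) : Set ℤ_[p])) := by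
    ext σ
    exact Iff.rfl
  rw [h1]
  refine IsOpen.preimage T.galEquiv.continuous ?_
  exact (isOpen_span_pow n).preimage continuous_toAdd

theorem isClosed_subgroup (T : ZpTower p k K Ω) (n : ℕ) :
    IsClosed (T.subgroup n : Set Gal(Ω/K)) :=
  Subgroup.isClosed_of_isOpen _ (T.isOpen_subgroup n)

/-- The closed subgroup. -/
noncomputable def closedSubgroup (T : ZpTower p k K Ω) (n : ℕ) : ClosedSubgroup Gal(Ω/K) :=
  ⟨T.subgroup n, T.isClosed_subgroup n⟩

instance closedSubgroup_normal (T : ZpTower p k K Ω) (n : ℕ) : (T.closedSubgroup n).Normal :=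
  T.subgroup_normal n

theorem fixingSubgroup_field (T : ZpTower p k K Ω) (n : ℕ) :
    (T.field n).fixingSubgroup = T.subgroup n := by
  have := T.isGalois
  exact InfiniteGalois.fixingSubgroup_fixedField (T.closedSubgroup n)

theorem field_mono (T : ZpTower p k K Ω) (n : ℕ) : T.field n ≤ T.field (n + 1) := by
  refine IntermediateField.fixedField_antitone ?_
  intro σ hσ
  rw [mem_subgroup] at hσ ⊢
  refine Ideal.span_singleton_le_span_singleton.mpr ?_ hσ
  exact pow_dvd_pow _ (Nat.le_succ n)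

theorem finiteDimensional_field (T : ZpTower p k K Ω) (n : ℕ) :
    FiniteDimensional K (T.field n) := by
  have := T.isGalois
  rw [← InfiniteGalois.isOpen_iff_finite, fixingSubgroup_field]
  exact T.isOpen_subgroup n

theorem isGalois_field (T : ZpTower p k K Ω) (n : ℕ) : IsGalois K (T.field n) := by
  have := T.isGalois
  rw [← InfiniteGalois.normal_iff_isGalois, fixingSubgroup_field]
  infer_instance

/-- The isomorphism of the Galois group of a layer with `ℤ / p ^ n`. -/
noncomputable def layerEquiv (T : ZpTower p k K Ω) (n : ℕ) :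
    Multiplicative (ZMod (p ^ n)) ≃* Gal(T.field n/K) :=
  letI := T.isGalois
  (QuotientGroup.liftEquiv (T.subgroup n) (T.redHom_surjective n) (T.ker_redHom n).symm).symm.trans
    (InfiniteGalois.normalAutEquivQuotient (T.closedSubgroup n))

instance normal_field (T : ZpTower p k K Ω) (n : ℕ) : Normal K (T.field n) :=
  (T.isGalois_field n).to_normal

theorem layerEquiv_redHom (T : ZpTower p k K Ω) (n : ℕ) (σ : Gal(Ω/K)) :
    letI := T.isGalois
    T.layerEquiv n (T.redHom n σ) = AlgEquiv.restrictNormalHom (T.field n) σ := by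
  have := T.isGalois
  have h1 : (QuotientGroup.liftEquiv (T.subgroup n) (T.redHom_surjective n) (T.ker_redHom n).symm).symm
      (T.redHom n σ) = (σ : Gal(Ω/K) ⧸ T.subgroup n) := by
    rw [MulEquiv.symm_apply_eq]
    rfl
  show (InfiniteGalois.normalAutEquivQuotient (T.closedSubgroup n))
    ((QuotientGroup.liftEquiv (T.subgroup n) (T.redHom_surjective n) (T.ker_redHom n).symm).symm
      (T.redHom n σ)) = _
  rw [h1]
  exact InfiniteGalois.normalAutEquivQuotient_apply (T.closedSubgroup n) σ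

theorem layerEquiv_apply (T : ZpTower p k K Ω) (n : ℕ) (a : ℤ_[p]) (z : T.field n) :
    ((T.layerEquiv n (Multiplicative.ofAdd (PadicInt.toZModPow n a)) z : T.field n) : Ω) =
      T.galEquiv.symm (Multiplicative.ofAdd a) (z : Ω) := by
  have := T.isGalois
  have h1 : Multiplicative.ofAdd (PadicInt.toZModPow n a) =
      T.redHom n (T.galEquiv.symm (Multiplicative.ofAdd a)) := by
    rw [redHom_apply, ContinuousMulEquiv.apply_symm_apply, toAdd_ofAdd]
  rw [h1, layerEquiv_redHom]
  exact AlgEquiv.restrictNormal_commutes _ _ z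

/-- D0. Basic facts on the layers. -/
theorem finrank_field (T : ZpTower p k K Ω) (n : ℕ) :
    FiniteDimensional K (T.field n) ∧ Module.finrank K (T.field n) = p ^ n ∧
      IsGalois K (T.field n) ∧ T.field n ≤ T.field (n + 1) := by
  have h1 := T.finiteDimensional_field n
  have h2 := T.isGalois_field n
  refine ⟨h1, ?_, h2, T.field_mono n⟩
  rw [← IsGalois.card_aut_eq_finrank, ← Nat.card_congr (T.layerEquiv n).toEquiv]
  have : Nat.card (Multiplicative (ZMod (p ^ n))) = Nat.card (ZMod (p ^ n)) := rfl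
  rw [this, Nat.card_zmod]

/-- D0'. The Galois group of the `n`-th layer is `ℤ/p^n`, via the action of `ℤ_p`. -/
theorem exists_layerEquiv (T : ZpTower p k K Ω) (n : ℕ) :
    ∃ e : Multiplicative (ZMod (p ^ n)) ≃* Gal(T.field n/K),
      ∀ (a : ℤ_[p]) (z : T.field n),
        ((e (Multiplicative.ofAdd (PadicInt.toZModPow n a)) z : T.field n) : Ω) =
          T.galEquiv.symm (Multiplicative.ofAdd a) (z : Ω) :=
  ⟨T.layerEquiv n, T.layerEquiv_apply n⟩

end ZpTower

end Pool.Agent.Helper7
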