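import Pool.Agent.Helper2.H7D.Frob
import Pool.Agent.Helper2.H7D.Layers

/-!
Frobenius elements in `ℤ_p` (Task D1 of the blueprint of MP_ddfa9a_nt).
-/

set_option autoImplicit false

namespace Pool.Agent.Helper7

open IsLocalRing

section Convert

variable {k F : Type*} [Field k] [Finite k] [Field F] [Algebra k F]

omit [Finite k] in
theorem pow_eq_one_mem (w : ValuationSubring F) {x : F} {n : ℕ} (hn : n ≠ 0) (hx : x ^ n = 1) :
    x ∈ w := by
  rcases w.mem_or_inv_mem x with h | h
  · exact h
  · have h1 : x ≠ 0 := by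
      rintro rfl
      rw [zero_pow hn] at hx
      exact zero_ne_one hx
    have h2 : x = (x⁻¹) ^ (n - 1) := by
      obtain ⟨m, rfl⟩ := Nat.exists_eq_succ_of_ne_zero hn
      rw [Nat.succ_sub_one, inv_pow, eq_comm, inv_eq_iff_eq_inv, eq_comm]
      rw [Nat.succ_eq_add_one, pow_succ] at hx
      exact inv_eq_of_mul_eq_one_left hx
    rw [h2]
    exact w.pow_mem h _

theorem const_mem (w : ValuationSubring F) (a : k) : algebraMap k F a ∈ w := by
  by_cases ha : a = 0
  · rw [ha, map_zero]; exact w.zero_mem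
  · have := Fintype.ofFinite k
    refine pow_eq_one_mem w (n := Fintype.card k - 1) ?_ ?_
    · have := Fintype.one_lt_card (α := k)
      omega
    · rw [← map_pow, FiniteField.pow_card_sub_one_eq_one a ha, map_one]

variable (k) in
/-- The place attached to a discrete valuation ring. -/
def toPlace (w : ValuationSubring F) (h : IsDiscreteValuationRing w) : _root_.ZpTower.Place k F :=
  ⟨w, const_mem w, h⟩

end Convert

section Unram

variable {k K L : Type*} [Field k] [Field K] [Field L] [Algebra k L] [Algebra K L]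

theorem exists_valuation_eq (w : ValuationSubring L) [IsDiscreteValuationRing w] {c : K} {ϖ : w}
    (hϖ : Irreducible ϖ) (hc : w.valuation (algebraMap K L c) = w.valuation (ϖ : L)) (y : L) :
    ∃ x : K, w.valuation (algebraMap K L x) = w.valuation y := by
  have key : ∀ y ∈ w, ∃ x : K, w.valuation (algebraMap K L x) = w.valuation y := by
    intro y hy
    by_cases hy0 : y = 0
    · exact ⟨0, by rw [map_zero, hy0]⟩
    · have h1 : (⟨y, hy⟩ : w) ≠ 0 := fun h => hy0 (congrArg Subtype.val h)
      obtain ⟨n, hn⟩ := IsDiscreteValuationRing.associated_pow_irreducible h1 hϖ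
      obtain ⟨u, hu⟩ := hn
      refine ⟨c ^ n, ?_⟩
      rw [map_pow, map_pow, hc]
      have h2 : (y : L) * ((u : w) : L) = (ϖ : L) ^ n := congrArg Subtype.val hu
      rw [← map_pow, ← h2, map_mul, (w.valuation_eq_one_iff (u : w)).mp u.isUnit, mul_one]
  rcases w.mem_or_inv_mem y with h | h
  · exact key y h
  · obtain ⟨x, hx⟩ := key _ h
    refine ⟨x⁻¹, ?_⟩
    rw [map_inv₀, map_inv₀, hx, map_inv₀, inv_inv]

theorem isUnramified_of (w : _root_.ZpTower.Place k L) (h : UnramifiedOver K w.ring) :
    w.IsUnramified K := by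
  intro y
  obtain ⟨ϖ, hϖ⟩ := IsDiscreteValuationRing.exists_irreducible w.ring
  have hϖm : ϖ ∈ maximalIdeal w.ring := hϖ.not_isUnit
  have hϖn : (ϖ : L) ∈ w.ring.nonunits := (w.ring.coe_mem_nonunits_iff).mpr hϖm
  obtain ⟨c, hc0, hc, hz⟩ := h _ hϖn
  refine exists_valuation_eq w.ring hϖ (c := c) ?_ y
  apply le_antisymm
  · have hcw : algebraMap K L c ∈ w.ring := w.ring.nonunits_le hc
    have h1 : (⟨algebraMap K L c, hcw⟩ : w.ring) ∈ maximalIdeal w.ring := by
      rw [← ValuationSubring.coe_mem_nonunits_iff]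
      exact hc
    rw [hϖ.maximalIdeal_eq, Ideal.mem_span_singleton] at h1
    obtain ⟨d, hd⟩ := h1
    have h2 : algebraMap K L c = (ϖ : L) * (d : L) := congrArg Subtype.val hd
    rw [h2, map_mul]
    exact mul_le_of_le_one_right' (w.ring.valuation_le_one d)
  · have h1 := (w.ring.valuation_le_one_iff _).mpr hz
    rw [map_div₀] at h1
    have h0 : w.ring.valuation (algebraMap K L c) ≠ 0 := by
      rw [Valuation.ne_zero_iff]
      exact (map_ne_zero _).mpr hc0
    rwa [div_le_one₀ (zero_lt_iff.mpr h0)] at h1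

theorem unramifiedOver_of (w : _root_.ZpTower.Place k L) (h : w.IsUnramified K) :
    UnramifiedOver K w.ring := by
  have key : ∀ z ∈ w.ring.nonunits, z ≠ 0 → ∃ c : K, c ≠ 0 ∧
      algebraMap K L c ∈ w.ring.nonunits ∧ z / algebraMap K L c ∈ w.ring := by
    intro z hz hz0
    obtain ⟨c, hc⟩ := h z
    have hc0 : c ≠ 0 := by
      rintro rfl
      rw [map_zero, map_zero] at hc
      exact hz0 ((map_eq_zero _).mp hc.symm)
    refine ⟨c, hc0, ?_, ?_⟩
    · rw [ValuationSubring.mem_nonunits_iff] at hz ⊢
      rw [hc]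
      exact hz
    · rw [← ValuationSubring.valuation_le_one_iff, map_div₀, hc, div_self]
      exact (Valuation.ne_zero_iff _).mpr hz0
  intro z hz
  by_cases hz0 : z = 0
  · obtain ⟨ϖ, hϖ⟩ := IsDiscreteValuationRing.exists_irreducible w.ring
    have hϖm : ϖ ∈ maximalIdeal w.ring := hϖ.not_isUnit
    have hϖn : (ϖ : L) ∈ w.ring.nonunits := (w.ring.coe_mem_nonunits_iff).mpr hϖm
    obtain ⟨c, hc0, hc, -⟩ := key _ hϖn (fun h => hϖ.ne_zero (Subtype.ext h))
    refine ⟨c, hc0, hc, ?_⟩
    rw [hz0, zero_div]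
    exact w.ring.zero_mem
  · exact key z hz hz0

end Unram

variable {p : ℕ} [Fact p.Prime] {k K Ω : Type*} [Field k] [Finite k] [CharP k p]
    [Field K] [Field Ω] [Algebra k K] [Algebra K Ω] [Algebra k Ω] [IsScalarTower k K Ω]

namespace ZpTower

open _root_.ZpTower

theorem comap_ne_top {L : Type*} [Field L] [Algebra K L] {w : ValuationSubring L}
    {v : ValuationSubring K} (hv : v ≠ ⊤) (h : w.comap (algebraMap K L) = v) : w ≠ ⊤ := by
  rintro rfl
  apply hv
  rw [← h]
  ext x
  simp [ValuationSubring.mem_comap]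

theorem isClosed_preimage_toZModPow (n : ℕ) (S : Set (ZMod (p ^ n))) :
    IsClosed ((PadicInt.toZModPow n : ℤ_[p] →+* ZMod (p ^ n)) ⁻¹' S) := by
  have h1 : ((PadicInt.toZModPow n : ℤ_[p] →+* ZMod (p ^ n)) ⁻¹' S) =
      (⋃ b ∈ ((PadicInt.toZModPow n : ℤ_[p] →+* ZMod (p ^ n)) ⁻¹' Sᶜ),
        (fun a => a - b) ⁻¹' ((Ideal.span {(p : ℤ_[p]) ^ n} : Ideal ℤ_[p]) : Set ℤ_[p]))ᶜ := by
    ext a
    simp only [Set.mem_preimage, Set.mem_compl_iff, Set.mem_iUnion, SetLike.mem_coe, exists_prop,
      not_exists, not_and]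
    simp only [← PadicInt.ker_toZModPow, RingHom.mem_ker, map_sub, sub_eq_zero]
    constructor
    · intro ha b hb hab
      exact hb (hab ▸ ha)
    · intro hh
      by_contra ha
      exact hh a ha rfl
  rw [h1, isClosed_compl_iff]
  refine isOpen_biUnion fun b _ => ?_
  exact (isOpen_span_pow n).preimage (continuous_id.sub continuous_const)


theorem layerEquiv_succ (T : ZpTower p k K Ω) (n : ℕ) (a : ℤ_[p]) (z : T.field n) :
    T.layerEquiv (n + 1) (Multiplicative.ofAdd (PadicInt.toZModPow (n + 1) a))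
      (IntermediateField.inclusion (T.field_mono n) z) =
    IntermediateField.inclusion (T.field_mono n)
      (T.layerEquiv n (Multiplicative.ofAdd (PadicInt.toZModPow n a)) z) := by
  apply Subtype.ext
  rw [layerEquiv_apply, IntermediateField.coe_inclusion, IntermediateField.coe_inclusion,
    layerEquiv_apply]

/-- The condition defining the Frobenius at level `n`. -/
def FrobCond (T : ZpTower p k K Ω) (v : ValuationSubring K) (N n : ℕ) (c : ZMod (p ^ n)) : Prop :=
  ∀ w : ValuationSubring (T.field n), w.comap (algebraMap K (T.field n)) = v →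
    ∀ z ∈ w, T.layerEquiv n (Multiplicative.ofAdd c) z - z ^ N ∈ w.nonunits

section

variable (T : ZpTower p k K Ω)
    (hdvrK : ∀ w : ValuationSubring K, w ≠ ⊤ →
      IsDiscreteValuationRing w ∧ Finite (IsLocalRing.ResidueField w))
    (hdvr : ∀ n, ∀ w : ValuationSubring (T.field n), w ≠ ⊤ →
      IsDiscreteValuationRing w ∧ Finite (IsLocalRing.ResidueField w))
    (v : ValuationSubring K) (hv : v ≠ ⊤)

include hdvrK hdvr hv

theorem exists_frobCond (n : ℕ) :
    ∃ c, T.FrobCond v (Nat.card (IsLocalRing.ResidueField v)) n c := by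
  have hfd := T.finiteDimensional_field n
  have hgal := T.isGalois_field n
  obtain ⟨W, hW⟩ := over_nonempty (L := T.field n) (toPlace k v (hdvrK v hv).1)
  have hW' : W.restrict K = toPlace k v (hdvrK v hv).1 := hW
  have hWv : W.ring.comap (algebraMap K (T.field n)) = v := congrArg Place.ring hW'
  have hfin : Finite (ResidueField W.ring) := (hdvr n W.ring (comap_ne_top hv hWv)).2
  obtain ⟨σ, hσ⟩ := exists_frob hW'
  refine ⟨Multiplicative.toAdd ((T.layerEquiv n).symm σ), fun w hw => ?_⟩
  rw [ofAdd_toAdd, MulEquiv.apply_symm_apply]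
  have hw' : (toPlace k w (hdvr n w (comap_ne_top hv hw)).1).restrict K =
    toPlace k v (hdvrK v hv).1 := Place.ext hw
  obtain ⟨τ, hτ⟩ := Place.exists_smul_eq hW' hw'
  have hcomm : ∀ a b : Gal(T.field n/K), a * b = b * a := by
    intro a b
    apply (T.layerEquiv n).symm.injective
    rw [map_mul, map_mul, mul_comm]
  have h1 := frob_smul hcomm hσ τ
  rw [hτ] at h1
  exact h1


theorem frobCond_succ (N n : ℕ) (a : ℤ_[p])
    (ha : T.FrobCond v N (n + 1) (PadicInt.toZModPow (n + 1) a)) :
    T.FrobCond v N n (PadicInt.toZModPow n a) := by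
  have hfd := T.finiteDimensional_field
  have hgal := T.isGalois_field
  intro w hw z hz
  have hle : T.field n ≤ T.field (n + 1) := T.field_mono n
  let : Algebra (T.field n) (T.field (n + 1)) := (IntermediateField.inclusion hle).toRingHom.toAlgebra
  have : IsScalarTower K (T.field n) (T.field (n + 1)) := IsScalarTower.of_algebraMap_eq fun x => rfl
  have : IsScalarTower k (T.field n) (T.field (n + 1)) := IsScalarTower.of_algebraMap_eq fun x => rfl
  have : FiniteDimensional (T.field n) (T.field (n + 1)) :=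
    FiniteDimensional.right K (T.field n) (T.field (n + 1))
  have : IsGalois (T.field n) (T.field (n + 1)) :=
    IsGalois.tower_top_of_isGalois K (T.field n) (T.field (n + 1))
  obtain ⟨W, hW⟩ := over_nonempty (L := T.field (n + 1))
    (toPlace k w (hdvr n w (comap_ne_top hv hw)).1)
  have hW' : W.restrict (T.field n) = toPlace k w (hdvr n w (comap_ne_top hv hw)).1 := hW
  have hWK : W.ring.comap (algebraMap K (T.field (n + 1))) = v := by
    have h1 : W.restrict K = toPlace k v (hdvrK v hv).1 := by
      rw [← restrict_restrict (M := T.field n), hW']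
      exact Place.ext hw
    exact congrArg Place.ring h1
  have hzW : algebraMap (T.field n) (T.field (n + 1)) z ∈ W.ring := by
    rw [← Place.mem_restrict_ring, hW']
    exact hz
  have h1 := ha W.ring hWK _ hzW
  have h2 : T.layerEquiv (n + 1) (Multiplicative.ofAdd (PadicInt.toZModPow (n + 1) a))
      (algebraMap (T.field n) (T.field (n + 1)) z) =
      algebraMap (T.field n) (T.field (n + 1))
        (T.layerEquiv n (Multiplicative.ofAdd (PadicInt.toZModPow n a)) z) := by
    exact T.layerEquiv_succ n a z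
  rw [h2, ← map_pow, ← map_sub, ← Place.mem_nonunits_restrict, hW'] at h1
  exact h1


omit hdvrK in
theorem unr_of_notMem (n : ℕ) (hv' : v ∉ T.ramificationLocus) (w : ValuationSubring (T.field n))
    (hw : w.comap (algebraMap K (T.field n)) = v) :
    (toPlace k w (hdvr n w (comap_ne_top hv hw)).1).IsUnramified K := by
  apply isUnramified_of
  by_contra hcon
  exact hv' ⟨hv, n, w, hw, hcon⟩

theorem orderOf_eq_of_frobCond (n : ℕ) (hv' : v ∉ T.ramificationLocus) (c : ZMod (p ^ n))
    (ha : T.FrobCond v (Nat.card (IsLocalRing.ResidueField v)) n c)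
    (w : ValuationSubring (T.field n)) (hw : w.comap (algebraMap K (T.field n)) = v) :
    addOrderOf c = resDeg (T.field n) (toPlace k v (hdvrK v hv).1) := by
  have hfd := T.finiteDimensional_field n
  have hgal := T.isGalois_field n
  have hfin : Finite (ResidueField (toPlace k w (hdvr n w (comap_ne_top hv hw)).1).ring) :=
    (hdvr n w (comap_ne_top hv hw)).2
  have hord : orderOf (T.layerEquiv n (Multiplicative.ofAdd c)) = addOrderOf c := by
    rw [MulEquiv.orderOf_eq, orderOf_ofAdd_eq_addOrderOf]
  rw [← hord]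
  exact orderOf_frob (v := toPlace k v (hdvrK v hv).1)
    (w := toPlace k w (hdvr n w (comap_ne_top hv hw)).1)
    (Place.ext hw) (unr_of_notMem T hdvr v hv n hv' w hw) (ha w hw)

theorem card_of_frobCond (n : ℕ) (hv' : v ∉ T.ramificationLocus) (c : ZMod (p ^ n))
    (ha : T.FrobCond v (Nat.card (IsLocalRing.ResidueField v)) n c)
    (w : ValuationSubring (T.field n)) (hw : w.comap (algebraMap K (T.field n)) = v) :
    Nat.card (IsLocalRing.ResidueField w) =
      Nat.card (IsLocalRing.ResidueField v) ^ addOrderOf c := by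
  have hfd := T.finiteDimensional_field n
  have hgal := T.isGalois_field n
  have hfin : Finite (ResidueField (toPlace k w (hdvr n w (comap_ne_top hv hw)).1).ring) :=
    (hdvr n w (comap_ne_top hv hw)).2
  rw [orderOf_eq_of_frobCond T hdvrK hdvr v hv n hv' c ha w hw]
  exact card_residue_pow (k := k) (v := toPlace k v (hdvrK v hv).1)
    (w := toPlace k w (hdvr n w (comap_ne_top hv hw)).1) (Place.ext hw)

/-- Counting places above `v` in the two languages. -/
theorem card_over (n : ℕ) :
    Nat.card {w : ValuationSubring (T.field n) // w.comap (algebraMap K (T.field n)) = v} =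
      letI := T.finiteDimensional_field n
      ((toPlace k v (hdvrK v hv).1).over (T.field n)).ncard := by
  have hfd := T.finiteDimensional_field n
  exact Nat.card_congr ⟨fun w => ⟨toPlace k w.1 (hdvr n w.1 (comap_ne_top hv w.2)).1, Place.ext w.2⟩,
      fun W => ⟨W.1.ring, congrArg Place.ring W.2⟩, fun w => rfl, fun W => rfl⟩

theorem card_mul_of_frobCond (n : ℕ) (hv' : v ∉ T.ramificationLocus) (c : ZMod (p ^ n))
    (ha : T.FrobCond v (Nat.card (IsLocalRing.ResidueField v)) n c) :
    Nat.card {w : ValuationSubring (T.field n) // w.comap (algebraMap K (T.field n)) = v} *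
      addOrderOf c = p ^ n := by
  have hfd := T.finiteDimensional_field n
  have hgal := T.isGalois_field n
  obtain ⟨W, hW⟩ := over_nonempty (L := T.field n) (toPlace k v (hdvrK v hv).1)
  have hW' : W.restrict K = toPlace k v (hdvrK v hv).1 := hW
  have hWv : W.ring.comap (algebraMap K (T.field n)) = v := congrArg Place.ring hW'
  rw [orderOf_eq_of_frobCond T hdvrK hdvr v hv n hv' c ha W.ring hWv,
    card_over T hdvrK hdvr v hv n]
  have h1 := resDeg_mul_ncard_eq hW' (unr_of_notMem T hdvr v hv n hv' W.ring hWv)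
  rw [(T.finrank_field n).2.1] at h1
  rw [mul_comm]
  exact h1

end

/-- D1. Frobenius element in `ℤ_p` and splitting of an unramified closed point. -/
theorem exists_frobenius (T : ZpTower p k K Ω)
    (hdvrK : ∀ w : ValuationSubring K, w ≠ ⊤ →
      IsDiscreteValuationRing w ∧ Finite (IsLocalRing.ResidueField w))
    (hdvr : ∀ n, ∀ w : ValuationSubring (T.field n), w ≠ ⊤ →
      IsDiscreteValuationRing w ∧ Finite (IsLocalRing.ResidueField w))
    (v : ValuationSubring K) (hv : v ≠ ⊤) (hv' : v ∉ T.ramificationLocus) :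
    ∃ a : ℤ_[p], ∀ n : ℕ,
      (∀ w : ValuationSubring (T.field n), w.comap (algebraMap K (T.field n)) = v →
        (∀ z ∈ w, ∀ z' : T.field n, (z' : Ω) = T.galEquiv.symm (Multiplicative.ofAdd a) (z : Ω) →
          z' - z ^ Nat.card (IsLocalRing.ResidueField v) ∈ w.nonunits) ∧
        Nat.card (IsLocalRing.ResidueField w) =
          Nat.card (IsLocalRing.ResidueField v) ^ addOrderOf (PadicInt.toZModPow n a)) ∧
      Nat.card {w : ValuationSubring (T.field n) // w.comap (algebraMap K (T.field n)) = v} *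
        addOrderOf (PadicInt.toZModPow n a) = p ^ n := by
  let F : ℕ → Set ℤ_[p] := fun n => (PadicInt.toZModPow n : ℤ_[p] →+* ZMod (p ^ n)) ⁻¹'
    {c | T.FrobCond v (Nat.card (IsLocalRing.ResidueField v)) n c}
  have hFcl : ∀ n, IsClosed (F n) := fun n => isClosed_preimage_toZModPow n _
  have hFne : ∀ n, (F n).Nonempty := by
    intro n
    obtain ⟨c, hc⟩ := exists_frobCond T hdvrK hdvr v hv n
    obtain ⟨a, ha⟩ := ZMod.ringHom_surjective (PadicInt.toZModPow n : ℤ_[p] →+* ZMod (p ^ n)) c
    refine ⟨a, ?_⟩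
    show T.FrobCond v (Nat.card (IsLocalRing.ResidueField v)) n _
    rw [ha]
    exact hc
  have hFanti : ∀ n, F (n + 1) ⊆ F n := fun n a ha =>
    frobCond_succ T hdvrK hdvr v hv _ n a ha
  obtain ⟨a, ha⟩ := IsCompact.nonempty_iInter_of_sequence_nonempty_isCompact_isClosed F hFanti hFne
    (hFcl 0).isCompact hFcl
  rw [Set.mem_iInter] at ha
  refine ⟨a, fun n => ⟨fun w hw => ⟨fun z hz z' hz' => ?_, ?_⟩, ?_⟩⟩
  · have h1 : z' = T.layerEquiv n (Multiplicative.ofAdd (PadicInt.toZModPow n a)) z := by
      apply Subtype.ext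
      rw [hz', layerEquiv_apply]
    rw [h1]
    exact ha n w hw z hz
  · exact card_of_frobCond T hdvrK hdvr v hv n hv' _ (ha n) w hw
  · exact card_mul_of_frobCond T hdvrK hdvr v hv n hv' _ (ha n)

end ZpTower

end Pool.Agent.Helper7
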