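import Pool.Agent.Helper2.H7D.Frob

/-!
Ramified places in cyclic `p`-power extensions: total ramification of the last step
(towards Task D2 of the blueprint of MP_ddfa9a_nt).
-/

set_option autoImplicit false

namespace ZpTower

open IsLocalRing IsDedekindDomain
open scoped Pointwise

/-- In a cyclic group of prime power order, a nontrivial subgroup contains every subgroup of
prime order. -/
theorem le_of_card_prime {G : Type*} [Group G] [IsCyclic G] {p m : ℕ} [hp : Fact p.Prime]
    (hG : Nat.card G = p ^ m) (H D : Subgroup G) (hH : Nat.card H = p) (hD : Nat.card D ≠ 1) :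
    H ≤ D := by
  classical
  have hfinG : Finite G := Nat.finite_of_card_ne_zero (by rw [hG]; exact (pow_pos hp.out.pos m).ne')
  let : Fintype G := Fintype.ofFinite _
  have hpD : p ∣ Nat.card D := by
    have h3 : Nat.card D ∣ p ^ m := hG ▸ Subgroup.card_subgroup_dvd_card D
    obtain ⟨j, _, hj⟩ := (Nat.dvd_prime_pow hp.out).mp h3
    rw [hj]
    refine dvd_pow_self p ?_
    rintro rfl
    exact hD (by rw [hj, pow_zero])
  obtain ⟨x, hx⟩ := exists_prime_orderOf_dvd_card' (G := D) p hpD
  have hxo : orderOf (x : G) = p := by rw [Subgroup.orderOf_coe, hx]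
  have hle := IsCyclic.card_pow_eq_one_le (α := G) hp.out.pos
  set S : Finset G := {a | a ^ p = 1} with hS
  have hHS : (H : Set G).toFinset ⊆ S := by
    intro a ha
    rw [Set.mem_toFinset] at ha
    have h4 : (⟨a, ha⟩ : H) ^ p = 1 := by
      rw [← hH]
      exact pow_card_eq_one'
    have h5 : a ^ p = 1 := congrArg Subtype.val h4
    simp [hS, h5]
  have hcard1 : (H : Set G).toFinset.card = p := by
    rw [← hH, ← Set.ncard_eq_toFinset_card']
    rfl
  have hHeq : (H : Set G).toFinset = S :=
    Finset.eq_of_subset_of_card_le hHS (by rw [hcard1]; exact hle)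
  have hZS : (Subgroup.zpowers (x : G) : Set G).toFinset ⊆ S := by
    intro a ha
    rw [Set.mem_toFinset] at ha
    obtain ⟨j, rfl⟩ := ha
    have : ((x : G) ^ j) ^ p = 1 := by
      rw [← zpow_natCast, ← zpow_mul, mul_comm, zpow_mul, zpow_natCast, ← hxo, pow_orderOf_eq_one,
        one_zpow]
    simp [hS, this]
  have hcard2 : (Subgroup.zpowers (x : G) : Set G).toFinset.card = p := by
    rw [← hxo, ← Nat.card_zpowers, ← Set.ncard_eq_toFinset_card']
    rfl
  have hZeq : (Subgroup.zpowers (x : G) : Set G).toFinset = S :=
    Finset.eq_of_subset_of_card_le hZS (by rw [hcard2]; exact hle)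
  intro a ha
  have h6 : a ∈ (Subgroup.zpowers (x : G) : Set G).toFinset := by
    rw [hZeq, ← hHeq, Set.mem_toFinset]
    exact ha
  rw [Set.mem_toFinset] at h6
  have h7 : Subgroup.zpowers (x : G) ≤ D := by
    rw [Subgroup.zpowers_le]
    exact x.2
  exact h7 h6

variable {k K L : Type*} [Field k] [Field K] [Field L] [Algebra k K] [Algebra k L] [Algebra K L]
  [IsScalarTower k K L]

theorem exists_valuation_eq' (w : ValuationSubring L) [IsDiscreteValuationRing w] {c : K} {ϖ : w}
    (hϖ : Irreducible ϖ) (hc : w.valuation (algebraMap K L c) = w.valuation (ϖ : L)) (y : L) :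
    ∃ x : K, w.valuation (algebraMap K L x) = w.valuation y := by
  have key : ∀ y ∈ w, ∃ x : K, w.valuation (algebraMap K L x) = w.valuation y := by
    intro y hy
    by_cases hy0 : y = 0
    · exact ⟨0, by rw [map_zero, hy0]⟩
    · have h1 : (⟨y, hy⟩ : w) ≠ 0 := fun h => hy0 (congrArg Subtype.val h)
      obtain ⟨n, hn⟩ := IsDiscreteValuationRing.associated_pow_irreducible h1 hϖ
      obtain ⟨u, hu⟩ := hn
      refine ⟨c ^ n, ?_⟩
      rw [map_pow, map_pow, hc]
      have h2 : (y : L) * ((u : w) : L) = (ϖ : L) ^ n := congrArg Subtype.val hu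
      rw [← map_pow, ← h2, map_mul, (w.valuation_eq_one_iff (u : w)).mp u.isUnit, mul_one]
  rcases w.mem_or_inv_mem y with h | h
  · exact key y h
  · obtain ⟨x, hx⟩ := key _ h
    refine ⟨x⁻¹, ?_⟩
    rw [map_inv₀, map_inv₀, hx, map_inv₀, inv_inv]

section Ram

variable [FiniteDimensional K L] [IsGalois K L] {v : Place k K} {w : Place k L}
  (h : w.restrict K = v)

include h in
theorem isUnramified_of_ramificationIdx_eq_one
    (he : (primeOf h).ramificationIdx v.ring = 1) : w.IsUnramified K := by
  have hm : (maximalIdeal v.ring).map (algebraMap v.ring (integralClosure v.ring L)) ≠ ⊥ := by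
    rw [Ne, Ideal.map_eq_bot_iff_of_injective (algebraMap_intCl_injective v)]
    exact maximalIdeal_ne_bot v
  rw [Ideal.IsDedekindDomain.ramificationIdx_eq_multiplicity (maximalIdeal v.ring) (primeOf h) hm]
    at he
  obtain ⟨t, ht⟩ := IsDiscreteValuationRing.exists_irreducible v.ring
  have hndvd : ¬ (primeOf h) ^ 2 ∣
      (maximalIdeal v.ring).map (algebraMap v.ring (integralClosure v.ring L)) := by
    intro hdvd
    have hfin : FiniteMultiplicity (primeOf h)
        ((maximalIdeal v.ring).map (algebraMap v.ring (integralClosure v.ring L))) :=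
      FiniteMultiplicity.of_prime_left ((Ideal.prime_iff_isPrime (primeOf_ne_bot h)).mpr
        inferInstance) hm
    have := hfin.le_multiplicity_of_pow_dvd hdvd
    omega
  rw [ht.maximalIdeal_eq, Ideal.map_span, Set.image_singleton, Ideal.dvd_span_singleton] at hndvd
  have htm : (t : v.ring) ∈ maximalIdeal v.ring := ht.not_isUnit
  have htP : algebraMap v.ring (integralClosure v.ring L) t ∈ primeOf h := by
    rw [Ideal.over_def (primeOf h) (maximalIdeal v.ring)] at htm
    exact htm
  obtain ⟨ϖ, hϖ⟩ := IsDiscreteValuationRing.exists_irreducible w.ring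
  have htw : toRing h (algebraMap v.ring (integralClosure v.ring L) t) ∈ maximalIdeal w.ring :=
    htP
  refine fun y => exists_valuation_eq' w.ring hϖ (c := (t : K)) ?_ y
  have ht0 : toRing h (algebraMap v.ring (integralClosure v.ring L) t) ≠ 0 := by
    intro h0
    have h1 : algebraMap v.ring (integralClosure v.ring L) t = 0 :=
      toRing_injective h (by rw [h0, map_zero])
    have h2 : t = 0 := algebraMap_intCl_injective v (by rw [h1, map_zero])
    exact ht.ne_zero h2
  obtain ⟨n, hn⟩ := IsDiscreteValuationRing.associated_pow_irreducible ht0 hϖ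
  have hn1 : n = 1 := by
    rcases Nat.lt_or_ge n 2 with hlt | hge
    · interval_cases n
      · exfalso
        rw [pow_zero] at hn
        have h1 : IsUnit (toRing h (algebraMap v.ring (integralClosure v.ring L) t)) :=
          associated_one_iff_isUnit.mp hn
        exact htw h1
      · rfl
    · exfalso
      -- t = ϖ ^ 2 * c
      obtain ⟨u, hu⟩ := hn.symm
      have hdv : ϖ ^ 2 ∣ toRing h (algebraMap v.ring (integralClosure v.ring L) t) := by
        rw [← hu]
        exact (pow_dvd_pow ϖ hge).mul_right _
      obtain ⟨c, hc⟩ := hdv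
      have hϖS : (ϖ : L) ∈ HeightOneSpectrum.valuationSubringAtPrime L (specOf h) := by
        rw [ring_eq h]; exact ϖ.2
      have hcS : (c : L) ∈ HeightOneSpectrum.valuationSubringAtPrime L (specOf h) := by
        rw [ring_eq h]; exact c.2
      obtain ⟨a, s, hs, has⟩ := hϖS
      obtain ⟨b, r, hr, hbr⟩ := hcS
      have hs' : s ∉ primeOf h := hs
      have hr' : r ∉ primeOf h := hr
      have hs0 : (s : L) ≠ 0 := by
        intro h0
        apply hs'
        have : s = 0 := Subtype.ext h0
        rw [this]
        exact (primeOf h).zero_mem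
      have hr0 : (r : L) ≠ 0 := by
        intro h0
        apply hr'
        have : r = 0 := Subtype.ext h0
        rw [this]
        exact (primeOf h).zero_mem
      have has' : (ϖ : L) * (s : L) = a := by
        have : (ϖ : L) = (a : L) * (s : L)⁻¹ := has
        rw [this, mul_assoc, inv_mul_cancel₀ hs0, mul_one]
      have hbr' : (c : L) * (r : L) = b := by
        have : (c : L) = (b : L) * (r : L)⁻¹ := hbr
        rw [this, mul_assoc, inv_mul_cancel₀ hr0, mul_one]
      have haP : a ∈ primeOf h := by
        rw [mem_primeOf]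
        have : toRing h a = ϖ * toRing h s := Subtype.ext has'.symm
        rw [this]
        exact Ideal.mul_mem_right _ _ hϖ.not_isUnit
      have heq : (s ^ 2 * r) * algebraMap v.ring (integralClosure v.ring L) t = a ^ 2 * b := by
        apply Subtype.ext
        have e1 : ((algebraMap v.ring (integralClosure v.ring L) t : integralClosure v.ring L) : L) =
          (ϖ : L) ^ 2 * (c : L) := congrArg Subtype.val hc
        show ((s : L) ^ 2 * (r : L)) *
          ((algebraMap v.ring (integralClosure v.ring L) t : integralClosure v.ring L) : L) =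
          (a : L) ^ 2 * (b : L)
        rw [e1, ← has', ← hbr']
        ring
      have hmem : (s ^ 2 * r) * algebraMap v.ring (integralClosure v.ring L) t ∈
          primeOf h ^ 2 := by
        rw [heq]
        exact Ideal.mul_mem_right _ _ (Ideal.pow_mem_pow haP 2)
      rw [mul_comm] at hmem
      have h1 : s ^ 2 * r ∈ primeOf h :=
        Ideal.mem_prime_of_mul_mem_pow (i := 1) (primeOf_ne_bot h) hndvd hmem
      rcases (Ideal.IsPrime.mem_or_mem inferInstance h1) with h2 | h2
      · exact hs' (Ideal.IsPrime.mem_of_pow_mem inferInstance 2 h2)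
      · exact hr' h2
  rw [hn1, pow_one] at hn
  obtain ⟨u, hu⟩ := hn
  have h2 : (algebraMap K L (t : K)) * ((u : w.ring) : L) = (ϖ : L) := congrArg Subtype.val hu
  rw [← h2, map_mul, (w.ring.valuation_eq_one_iff (u : w.ring)).mp u.isUnit, mul_one]

end Ram

section Tower

variable {M N : Type*} [Field M] [Field N] [Algebra k M] [Algebra k N] [Algebra K M] [Algebra K N]
  [Algebra M N] [IsScalarTower k K M] [IsScalarTower k K N] [IsScalarTower k M N]
  [IsScalarTower K M N] [FiniteDimensional K M] [FiniteDimensional K N] [FiniteDimensional M N]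
  [IsGalois K M] [IsGalois K N] [IsGalois M N]

omit [IsScalarTower k K M] [FiniteDimensional K M] [IsGalois K M] in
/-- The last step of a cyclic `p`-power extension is totally ramified at ramified places. -/
theorem step_ramified {p m : ℕ} [hp : Fact p.Prime] [IsCyclic (N ≃ₐ[K] N)]
    (hN : Module.finrank K N = p ^ m) (hMN : Module.finrank M N = p)
    (W : Place k N) [Finite k] [hfinW : Finite (ResidueField W.ring)] (hram : ¬ W.IsUnramified K) :
    (∀ W' : Place k N, W'.restrict M = W.restrict M → W' = W) ∧
      Nat.card (ResidueField W.ring) = Nat.card (ResidueField (W.restrict M).ring) := by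
  classical
  obtain ⟨v, hv⟩ : ∃ v, W.restrict K = v := ⟨_, rfl⟩
  have hfinv : Finite (ResidueField v.ring) := by
    subst hv
    exact finite_residue_restrict
  have hcardG : Nat.card (N ≃ₐ[K] N) = p ^ m := by
    rw [IsGalois.card_aut_eq_finrank, hN]
  let φ : (N ≃ₐ[M] N) →* (N ≃ₐ[K] N) := AlgEquiv.restrictScalarsHom K
  have hφinj : Function.Injective φ := by
    intro a b hab
    ext x
    exact DFunLike.congr_fun hab x
  have hcardH : Nat.card φ.range = p := by
    rw [← hMN, ← IsGalois.card_aut_eq_finrank M N]
    exact (Nat.card_congr (MonoidHom.ofInjective hφinj).toEquiv).symm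
  -- the residue field of the bottom is perfect
  have hfin1 : Finite (v.ring ⧸ maximalIdeal v.ring) := hfinv
  have hfin2 : Finite (maximalIdeal v.ring).ResidueField :=
    Finite.of_surjective _ (Ideal.bijective_algebraMap_quotient_residueField (maximalIdeal v.ring)).2
  have hI : Nat.card ((primeOf hv).inertia (N ≃ₐ[K] N)) =
      (maximalIdeal v.ring).ramificationIdxIn (integralClosure v.ring N) :=
    Ideal.card_inertia_eq_ramificationIdxIn (maximalIdeal v.ring) (primeOf hv)
  have hI1 : Nat.card ((primeOf hv).inertia (N ≃ₐ[K] N)) ≠ 1 := by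
    rw [hI, Ideal.ramificationIdxIn_eq_ramificationIdx (maximalIdeal v.ring) (primeOf hv)
      (N ≃ₐ[K] N)]
    exact fun h1 => hram (isUnramified_of_ramificationIdx_eq_one hv h1)
  have hle : φ.range ≤ (primeOf hv).inertia (N ≃ₐ[K] N) :=
    le_of_card_prime hcardG _ _ hcardH hI1
  -- the elements of `Gal(N/M)` act trivially on residues of integral elements
  have hact0 : ∀ τ : N ≃ₐ[M] N, ∀ b : integralClosure v.ring N,
      τ (b : N) - (b : N) ∈ W.ring.nonunits := by
    intro τ b
    have h1 : φ τ ∈ (primeOf hv).inertia (N ≃ₐ[K] N) := hle ⟨τ, rfl⟩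
    have h2 := h1 b
    have h3 : (φ τ) • b - b ∈ primeOf hv := h2
    rw [mem_primeOf, ← ValuationSubring.coe_mem_nonunits_iff] at h3
    exact h3
  have hstab : ∀ τ : N ≃ₐ[M] N, τ • W = W := by
    intro τ
    apply Place.ext
    symm
    apply ValuationSubring.eq_of_le_of_ne_top
    · rw [← ring_eq hv]
      rintro x ⟨a, s, hs, rfl⟩
      rw [Place.mem_smul_ring, map_mul, map_inv₀]
      have hs' : s ∉ primeOf hv := hs
      have h1 : ∀ b : integralClosure v.ring N, τ.symm (b : N) - (b : N) ∈ W.ring.nonunits :=
        fun b => hact0 τ.symm b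
      have h2 : τ.symm (algebraMap (integralClosure v.ring N) N a) ∈ W.ring := by
        have h3 := W.ring.add_mem _ _ (W.ring.nonunits_le (h1 a)) (toRing hv a).2
        have h4 : (τ.symm (a : N) - (a : N)) + (toRing hv a : N) = τ.symm (a : N) := by
          rw [coe_toRing]; ring
        rw [h4] at h3
        exact h3
      have h5 : (τ.symm (algebraMap (integralClosure v.ring N) N s))⁻¹ ∈ W.ring := by
        have h6 : τ.symm (algebraMap (integralClosure v.ring N) N s) ∉ W.ring.nonunits := by
          intro h7
          apply hs'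
          rw [mem_primeOf, ← ValuationSubring.coe_mem_nonunits_iff]
          have h8 := sub_mem h7 (h1 s)
          have h9 : τ.symm (algebraMap (integralClosure v.ring N) N s) -
            (τ.symm (s : N) - (s : N)) = (toRing hv s : N) := by
            rw [coe_toRing]
            show τ.symm (s : N) - (τ.symm (s : N) - (s : N)) = (s : N)
            ring
          rw [h9] at h8
          exact h8
        rw [ValuationSubring.mem_nonunits_iff_or] at h6
        push Not at h6
        exact h6.2
      exact W.ring.mul_mem _ _ h2 h5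
    · exact ne_top_of_dvr _
  refine ⟨?_, ?_⟩
  · intro W' hW'
    obtain ⟨τ, hτ⟩ := Place.exists_smul_eq (K := M) (w := W) (w' := W') rfl hW'
    rw [← hτ, hstab]
  · -- Frobenius of `N / M`
    obtain ⟨σ, hσ⟩ := exists_frob (K := M) (w := W) rfl
    have hσ' : ∀ z ∈ W.ring, σ z - z ∈ W.ring.nonunits := by
      intro z hz
      obtain ⟨y, hy⟩ := (residueMap_bijective hv).2 (residue W.ring ⟨z, hz⟩)
      obtain ⟨s, rfl⟩ := Ideal.Quotient.mk_surjective y
      have hy' : residue W.ring (toRing hv s) = residue W.ring ⟨z, hz⟩ := hy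
      have hsz : toRing hv s - ⟨z, hz⟩ ∈ maximalIdeal W.ring := by
        rw [← residue_eq_zero_iff, map_sub, hy', sub_self]
      have hsz' : (s : N) - z ∈ W.ring.nonunits := by
        rw [← ValuationSubring.coe_mem_nonunits_iff] at hsz
        exact hsz
      have h1 : σ (s : N) - σ z ∈ W.ring.nonunits := by
        rw [← map_sub]
        have h6 : (σ ((s : N) - z)) ∈ (σ • W).ring.nonunits := by
          rw [Place.mem_nonunits_smul, AlgEquiv.symm_apply_apply]
          exact hsz'
        rwa [hstab] at h6
      have h9 := add_mem (sub_mem (hact0 σ s) h1) hsz'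
      convert h9 using 1
      ring
    have hfinw : Finite (ResidueField (W.restrict M).ring) := finite_residue_restrict
    set Q := Nat.card (ResidueField (W.restrict M).ring) with hQ
    have hQ2 : 1 < Q := Finite.one_lt_card
    have hroot : ∀ x : ResidueField W.ring, x ^ Q = x := by
      intro x
      obtain ⟨z, rfl⟩ := residue_surjective x
      have h2 := sub_mem (hσ z z.2) (hσ' z z.2)
      have h3 : z - z ^ Q ∈ maximalIdeal W.ring := by
        rw [← ValuationSubring.coe_mem_nonunits_iff]
        have h4 : ((z - z ^ Q : W.ring) : N) = (σ (z : N) - (z : N) ^ Q) - (σ (z : N) - (z : N)) := by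
          push_cast
          ring
        rw [h4]
        exact h2
      rw [← residue_eq_zero_iff, map_sub, map_pow, sub_eq_zero] at h3
      exact h3.symm
    apply le_antisymm
    · have := Fintype.ofFinite (ResidueField W.ring)
      have hne : (Polynomial.X ^ Q - Polynomial.X :
          Polynomial (ResidueField W.ring)) ≠ 0 := FiniteField.X_pow_card_sub_X_ne_zero _ hQ2
      rw [Nat.card_eq_fintype_card, ← Finset.card_univ]
      refine (Finset.card_le_card (t := (Polynomial.X ^ Q - Polynomial.X :
          Polynomial (ResidueField W.ring)).roots.toFinset) ?_).trans ?_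
      · intro x _
        rw [Multiset.mem_toFinset, Polynomial.mem_roots hne]
        simp [hroot x]
      · refine (Multiset.toFinset_card_le _).trans ?_
        refine (Polynomial.card_roots' _).trans ?_
        rw [FiniteField.X_pow_card_sub_X_natDegree_eq _ hQ2]
    · rw [card_residue_pow (k := k) (v := W.restrict M) (w := W) rfl]
      exact Nat.le_self_pow (resDeg_pos (W.restrict M)).ne' _

end Tower

end ZpTower
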