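import Pool.Agent.Helper2.H7D.Inertia
import Pool.Agent.Helper2.H7D.Frobenius

/-!
Ramified places in the layers of a `ℤ_p`-tower (Task D2 of the blueprint of MP_ddfa9a_nt).
-/

set_option autoImplicit false

namespace Pool.Agent.Helper7

open IsLocalRing

section Unram

variable {k K L : Type*} [Field k] [Field K] [Field L] [Algebra k K] [Algebra k L] [Algebra K L]
  [IsScalarTower k K L]

theorem UnramifiedOver.smul {w : _root_.ZpTower.Place k L} (h : UnramifiedOver K w.ring)
    (σ : L ≃ₐ[K] L) : UnramifiedOver K (σ • w).ring := by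
  intro z hz
  rw [_root_.ZpTower.Place.mem_nonunits_smul] at hz
  obtain ⟨c, hc0, hc, hzc⟩ := h _ hz
  refine ⟨c, hc0, ?_, ?_⟩
  · rw [_root_.ZpTower.Place.mem_nonunits_smul, AlgEquiv.commutes]
    exact hc
  · rw [_root_.ZpTower.Place.mem_smul_ring, map_div₀, AlgEquiv.commutes]
    exact hzc

variable {M : Type*} [Field M] [Algebra k M] [Algebra K M] [Algebra M L] [IsScalarTower k M L]
  [IsScalarTower K M L] [Algebra.IsAlgebraic M L]

omit [Algebra k K] [IsScalarTower k K L] in
theorem UnramifiedOver.restrict {w : _root_.ZpTower.Place k L} (h : UnramifiedOver K w.ring) :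
    UnramifiedOver K (w.restrict M).ring := by
  intro z hz
  rw [_root_.ZpTower.Place.mem_nonunits_restrict] at hz
  obtain ⟨c, hc0, hc, hzc⟩ := h _ hz
  refine ⟨c, hc0, ?_, ?_⟩
  · rw [_root_.ZpTower.Place.mem_nonunits_restrict, ← IsScalarTower.algebraMap_apply]
    exact hc
  · rw [_root_.ZpTower.Place.mem_restrict_ring, map_div₀, ← IsScalarTower.algebraMap_apply]
    exact hzc

end Unram


section Abstract

open _root_.ZpTower

theorem comap_ne_top' {K L : Type*} [Field K] [Field L] [Algebra K L] {w : ValuationSubring L}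
    {v : ValuationSubring K} (hv : v ≠ ⊤) (h : w.comap (algebraMap K L) = v) : w ≠ ⊤ := by
  rintro rfl
  apply hv
  rw [← h]
  ext x
  simp [ValuationSubring.mem_comap]

variable {K M N : Type*} [Field K] [Field M] [Field N] [Algebra K M] [Algebra K N]
  [Algebra M N] [IsScalarTower K M N] [FiniteDimensional K M] [FiniteDimensional K N] [FiniteDimensional M N]
  [IsGalois K M] [IsGalois K N] [IsGalois M N] [IsCyclic (N ≃ₐ[K] N)] {p m : ℕ} [Fact p.Prime]

theorem step_comap (k : Type*) [Field k] [Finite k] [Algebra k K]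
    [Algebra k M] [Algebra k N] [IsScalarTower k K M] [IsScalarTower k K N] [IsScalarTower k M N]
    (hN : Module.finrank K N = p ^ m) (hMN : Module.finrank M N = p)
    (hdvrM : ∀ w : ValuationSubring M, w ≠ ⊤ →
      IsDiscreteValuationRing w ∧ Finite (IsLocalRing.ResidueField w))
    (hdvrN : ∀ w : ValuationSubring N, w ≠ ⊤ →
      IsDiscreteValuationRing w ∧ Finite (IsLocalRing.ResidueField w))
    (v : ValuationSubring K) (hv : v ≠ ⊤)
    (hn : ∀ w : ValuationSubring N, w.comap (algebraMap K N) = v → ¬ UnramifiedOver K w) :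
    (∀ w w' : ValuationSubring N, w.comap (algebraMap K N) = v →
      w'.comap (algebraMap M N) = w.comap (algebraMap M N) → w' = w) ∧
    (∀ w : ValuationSubring N, w.comap (algebraMap K N) = v →
      (w.comap (algebraMap M N)).comap (algebraMap K M) = v ∧
      Nat.card (ResidueField w) = Nat.card (ResidueField (w.comap (algebraMap M N)))) ∧
    (∀ u : ValuationSubring M, u.comap (algebraMap K M) = v →
      ∃ w : ValuationSubring N, w.comap (algebraMap K N) = v ∧
        w.comap (algebraMap M N) = u) := by
  have hcc : ∀ w : ValuationSubring N,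
      (w.comap (algebraMap M N)).comap (algebraMap K M) = w.comap (algebraMap K N) := by
    intro w
    ext x
    rw [ValuationSubring.mem_comap, ValuationSubring.mem_comap, ValuationSubring.mem_comap,
      ← IsScalarTower.algebraMap_apply K M N]
  have main : ∀ w : ValuationSubring N,
      (hw : w.comap (algebraMap K N) = v) →
      (∀ W' : Place k N,
        W'.restrict M = (toPlace k w (hdvrN w (comap_ne_top' hv hw)).1).restrict M →
          W' = (toPlace k w (hdvrN w (comap_ne_top' hv hw)).1)) ∧
      Nat.card (ResidueField w) = Nat.card (ResidueField (w.comap (algebraMap M N))) := by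
    intro w hw
    have hfin : Finite (ResidueField (toPlace k w (hdvrN w (comap_ne_top' hv hw)).1).ring) :=
      (hdvrN w (comap_ne_top' hv hw)).2
    have hram : ¬ (toPlace k w (hdvrN w (comap_ne_top' hv hw)).1).IsUnramified K :=
      fun h => hn w hw (unramifiedOver_of (toPlace k w (hdvrN w (comap_ne_top' hv hw)).1) h)
    exact step_ramified (p := p) (m := m) hN hMN
      (toPlace k w (hdvrN w (comap_ne_top' hv hw)).1) hram
  refine ⟨?_, ?_, ?_⟩
  · intro w w' hw hww
    have hw' : w'.comap (algebraMap K N) = v := by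
      rw [← hcc, hww, hcc, hw]
    have h1 := (main w hw).1 (toPlace k w' (hdvrN w' (comap_ne_top' hv hw')).1)
      (Place.ext hww)
    exact congrArg Place.ring h1
  · intro w hw
    exact ⟨(hcc w).trans hw, (main w hw).2⟩
  · intro u hu
    obtain ⟨W, hW⟩ := over_nonempty (L := N)
      (toPlace k u (hdvrM u (comap_ne_top' hv hu)).1)
    have hW' : W.restrict M = toPlace k u (hdvrM u (comap_ne_top' hv hu)).1 := hW
    have hWu : W.ring.comap (algebraMap M N) = u :=
      congrArg Place.ring hW'
    refine ⟨W.ring, ?_, hWu⟩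
    rw [← hcc, hWu, hu]

/-- Counting ramified places. -/
theorem step_count (k : Type*) [Field k] [Finite k] [Algebra k K]
    [Algebra k M] [Algebra k N] [IsScalarTower k K M] [IsScalarTower k K N] [IsScalarTower k M N]
    (hN : Module.finrank K N = p ^ m) (hMN : Module.finrank M N = p)
    (hdvrM : ∀ w : ValuationSubring M, w ≠ ⊤ →
      IsDiscreteValuationRing w ∧ Finite (IsLocalRing.ResidueField w))
    (hdvrN : ∀ w : ValuationSubring N, w ≠ ⊤ →
      IsDiscreteValuationRing w ∧ Finite (IsLocalRing.ResidueField w))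
    (S : Set (ValuationSubring K)) (hS : ∀ v ∈ S, v ≠ ⊤)
    (hn : ∀ w : ValuationSubring N, w.comap (algebraMap K N) ∈ S → ¬ UnramifiedOver K w) (j : ℕ) :
    Nat.card {w : ValuationSubring N // w.comap (algebraMap K N) ∈ S ∧
      Nat.card (IsLocalRing.ResidueField w) = j} =
    Nat.card {w : ValuationSubring M // w.comap (algebraMap K M) ∈ S ∧
      Nat.card (IsLocalRing.ResidueField w) = j} := by
  have hstep : ∀ v ∈ S, _ := fun v hv =>
    step_comap k hN hMN hdvrM hdvrN v (hS v hv) (fun w hw => hn w (hw ▸ hv))
  refine Nat.card_congr (Equiv.ofBijective (fun w => ⟨w.1.comap (algebraMap M N), ?_, ?_⟩)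
    ⟨?_, ?_⟩)
  · rw [((hstep _ w.2.1).2.1 w.1 rfl).1]
    exact w.2.1
  · rw [← ((hstep _ w.2.1).2.1 w.1 rfl).2]
    exact w.2.2
  · intro w w' hww
    apply Subtype.ext
    exact ((hstep _ w.2.1).1 w.1 w'.1 rfl (congrArg Subtype.val hww).symm).symm
  · intro u
    obtain ⟨w, hw, hwu⟩ := (hstep _ u.2.1).2.2 u.1 rfl
    have h1 : Nat.card (ResidueField w) = j := by
      rw [((hstep _ u.2.1).2.1 w hw).2, hwu]
      exact u.2.2
    refine ⟨⟨w, ?_, h1⟩, Subtype.ext hwu⟩
    rw [hw]
    exact u.2.1

end Abstract

variable {p : ℕ} [Fact p.Prime] {k K Ω : Type*} [Field k] [Finite k] [CharP k p]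
    [Field K] [Field Ω] [Algebra k K] [Algebra K Ω] [Algebra k Ω] [IsScalarTower k K Ω]

namespace ZpTower

open _root_.ZpTower

theorem field_mono' (T : ZpTower p k K Ω) {m n : ℕ} (h : m ≤ n) : T.field m ≤ T.field n := by
  induction h with
  | refl => exact le_rfl
  | step _ ih => exact ih.trans (T.field_mono _)

theorem isCyclic_field (T : ZpTower p k K Ω) (n : ℕ) : IsCyclic Gal(T.field n/K) := by
  have : IsAddCyclic (ZMod (p ^ n)) := inferInstance
  have h2 : IsCyclic (Multiplicative (ZMod (p ^ n))) := inferInstance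
  exact isCyclic_of_surjective (T.layerEquiv n) (T.layerEquiv n).surjective

section

variable (T : ZpTower p k K Ω)
    (hdvrK : ∀ w : ValuationSubring K, w ≠ ⊤ →
      IsDiscreteValuationRing w ∧ Finite (IsLocalRing.ResidueField w))
    (hdvr : ∀ n, ∀ w : ValuationSubring (T.field n), w ≠ ⊤ →
      IsDiscreteValuationRing w ∧ Finite (IsLocalRing.ResidueField w))

include hdvrK hdvr

/-- A place above a ramified place of the layer `m` is ramified. -/
theorem ramified_of_le {m n : ℕ} (hmn : m ≤ n) (v : ValuationSubring K) (hv : v ≠ ⊤)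
    (w : ValuationSubring (T.field m)) (hw : w.comap (algebraMap K (T.field m)) = v)
    (hram : ¬ UnramifiedOver K w)
    (w' : ValuationSubring (T.field n)) (hw' : w'.comap (algebraMap K (T.field n)) = v) :
    ¬ UnramifiedOver K w' := by
  intro hcon
  have hfd := T.finiteDimensional_field
  have hgal := T.isGalois_field
  have hle : T.field m ≤ T.field n := T.field_mono' hmn
  let : Algebra (T.field m) (T.field n) := (IntermediateField.inclusion hle).toRingHom.toAlgebra
  have : IsScalarTower K (T.field m) (T.field n) := IsScalarTower.of_algebraMap_eq fun x => rfl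
  have : IsScalarTower k (T.field m) (T.field n) := IsScalarTower.of_algebraMap_eq fun x => rfl
  have : FiniteDimensional (T.field m) (T.field n) :=
    FiniteDimensional.right K (T.field m) (T.field n)
  have : IsGalois (T.field m) (T.field n) :=
    IsGalois.tower_top_of_isGalois K (T.field m) (T.field n)
  have h1 : UnramifiedOver K ((toPlace k w' (hdvr n w' (comap_ne_top hv hw')).1).restrict
    (T.field m)).ring := UnramifiedOver.restrict hcon
  have h2 : ((toPlace k w' (hdvr n w' (comap_ne_top hv hw')).1).restrict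
    (T.field m)).restrict K = toPlace k v (hdvrK v hv).1 := by
    rw [restrict_restrict]
    exact Place.ext hw'
  have h3 : (toPlace k w (hdvr m w (comap_ne_top hv hw)).1).restrict K =
    toPlace k v (hdvrK v hv).1 := Place.ext hw
  obtain ⟨σ, hσ⟩ := Place.exists_smul_eq h2 h3
  have h4 := UnramifiedOver.smul h1 σ
  rw [hσ] at h4
  exact hram h4

theorem exists_level (hfin : T.ramificationLocus.Finite) :
    ∃ n₀ : ℕ, ∀ n ≥ n₀, ∀ w : ValuationSubring (T.field n),
      w.comap (algebraMap K (T.field n)) ∈ T.ramificationLocus → ¬ UnramifiedOver K w := by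
  have h1 : ∀ v ∈ T.ramificationLocus, ∃ m : ℕ, ∃ w : ValuationSubring (T.field m),
      w.comap (algebraMap K (T.field m)) = v ∧ ¬ UnramifiedOver K w := fun v hv => hv.2
  have h2 : ∀ v : ValuationSubring K, ∃ m : ℕ, v ∈ T.ramificationLocus →
      ∃ w : ValuationSubring (T.field m),
      w.comap (algebraMap K (T.field m)) = v ∧ ¬ UnramifiedOver K w := by
    intro v
    by_cases hv : v ∈ T.ramificationLocus
    · obtain ⟨m, hm⟩ := h1 v hv
      exact ⟨m, fun _ => hm⟩
    · exact ⟨0, fun h => absurd h hv⟩
  choose m hm using h2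
  refine ⟨hfin.toFinset.sup m, fun n hn w hw => ?_⟩
  obtain ⟨w₁, hw₁, hram⟩ := hm _ hw
  refine ramified_of_le T hdvrK hdvr (m := m (w.comap (algebraMap K (T.field n)))) ?_ _ hw.1 w₁ hw₁
    hram w rfl
  exact (Finset.le_sup (f := m) (hfin.mem_toFinset.mpr hw)).trans hn

theorem finite_over (n : ℕ) (v : ValuationSubring K) (hv : v ≠ ⊤) :
    {w : ValuationSubring (T.field n) | w.comap (algebraMap K (T.field n)) = v}.Finite := by
  have hfd := T.finiteDimensional_field n
  have hgal := T.isGalois_field n
  have h1 : ((toPlace k v (hdvrK v hv).1).over (T.field n)).Finite := over_finite _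
  refine (h1.image Place.ring).subset ?_
  intro w hw
  exact ⟨toPlace k w (hdvr n w (comap_ne_top hv hw)).1, Place.ext hw, rfl⟩

theorem finite_overS (hfin : T.ramificationLocus.Finite) (n : ℕ) :
    {w : ValuationSubring (T.field n) |
        w.comap (algebraMap K (T.field n)) ∈ T.ramificationLocus}.Finite := by
  have h1 := hfin.biUnion (t := fun v => {w : ValuationSubring (T.field n) |
    w.comap (algebraMap K (T.field n)) = v}) (fun v hv => finite_over T hdvrK hdvr n v hv.1)
  refine h1.subset ?_
  intro w hw
  rw [Set.mem_iUnion₂]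
  exact ⟨_, hw, rfl⟩

/-- D2. Ramified points are totally ramified in high layers. -/
theorem ramified_count (hfin : T.ramificationLocus.Finite) :
    ∃ n₀ : ℕ, ∀ n ≥ n₀, ∀ N : ℕ,
      {w : ValuationSubring (T.field n) |
        w.comap (algebraMap K (T.field n)) ∈ T.ramificationLocus}.Finite ∧
      Nat.card {w : ValuationSubring (T.field (n + 1)) //
        w.comap (algebraMap K (T.field (n + 1))) ∈ T.ramificationLocus ∧
          Nat.card (IsLocalRing.ResidueField w) = N} =
      Nat.card {w : ValuationSubring (T.field n) //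
        w.comap (algebraMap K (T.field n)) ∈ T.ramificationLocus ∧
          Nat.card (IsLocalRing.ResidueField w) = N} := by
  obtain ⟨n₀, hn₀⟩ := exists_level T hdvrK hdvr hfin
  refine ⟨n₀, fun n hn N => ⟨finite_overS T hdvrK hdvr hfin n, ?_⟩⟩
  have hfd := T.finiteDimensional_field
  have hgal := T.isGalois_field
  let : Algebra (T.field n) (T.field (n + 1)) :=
      (IntermediateField.inclusion (T.field_mono n)).toRingHom.toAlgebra
  have : IsScalarTower K (T.field n) (T.field (n + 1)) := IsScalarTower.of_algebraMap_eq fun x => rfl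
  have : IsScalarTower k (T.field n) (T.field (n + 1)) := IsScalarTower.of_algebraMap_eq fun x => rfl
  have : FiniteDimensional (T.field n) (T.field (n + 1)) :=
    FiniteDimensional.right K (T.field n) (T.field (n + 1))
  have : IsGalois (T.field n) (T.field (n + 1)) :=
    IsGalois.tower_top_of_isGalois K (T.field n) (T.field (n + 1))
  have hcyc : IsCyclic (T.field (n + 1) ≃ₐ[K] T.field (n + 1)) := T.isCyclic_field (n + 1)
  have hfr : Module.finrank (T.field n) (T.field (n + 1)) = p := by
    have h1 := Module.finrank_mul_finrank K (T.field n) (T.field (n + 1))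
    rw [(T.finrank_field n).2.1, (T.finrank_field (n + 1)).2.1, pow_succ] at h1
    exact Nat.eq_of_mul_eq_mul_left (pow_pos (Fact.out : p.Prime).pos n) h1
  exact step_count k (T.finrank_field (n + 1)).2.1 hfr (hdvr n) (hdvr (n + 1))
    T.ramificationLocus (fun v hv => hv.1) (fun w hw => hn₀ (n + 1) (by omega) w hw) N

end

end ZpTower

end Pool.Agent.Helper7
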