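import Pool.Agent.Helper2.H7D.Ramified

/-!
Task D of the blueprint of MP_ddfa9a_nt: collects `ZpTower.finrank_field`,
`ZpTower.exists_layerEquiv`, `ZpTower.exists_frobenius`, `ZpTower.ramified_count`
(namespace `Pool.Agent.Helper7`).
-/
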